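import Pool.Agent.H36.WH.Def
import Pool.Agent.H43.SI.Div

/-!
# WILD, chapter H: the bilinear sum
-/

set_option autoImplicit false

namespace Pool.Agent.H36.WH

open Finset MeasureTheory

theorem win_ite (f : ℕ → ℝ) (N : ℕ) (δ y : ℝ) :
    win f N δ y = ∑ n ∈ Icc 1 N, if y < Real.log n ∧ Real.log n ≤ y + δ then f n else 0 := by
  unfold win
  rw [Finset.sum_filter]

theorem win_measurable (f : ℕ → ℝ) (N : ℕ) (δ : ℝ) : Measurable (win f N δ) := by
  have : win f N δ = fun y => ∑ n ∈ Icc 1 N, if y < Real.log n ∧ Real.log n ≤ y + δ then f n else 0 := by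
    funext y
    exact win_ite f N δ y
  rw [this]
  apply Finset.measurable_sum
  intro n _
  apply Measurable.ite _ measurable_const measurable_const
  apply MeasurableSet.inter
  · exact measurableSet_lt measurable_id measurable_const
  · exact measurableSet_le measurable_const (measurable_id.add_const δ)

theorem win_abs_le (f : ℕ → ℝ) (N : ℕ) (δ y : ℝ) : |win f N δ y| ≤ ∑ n ∈ Icc 1 N, |f n| := by
  rw [win_ite]
  refine (Finset.abs_sum_le_sum_abs _ _).trans (Finset.sum_le_sum fun n _ => ?_)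
  split_ifs
  · exact le_rfl
  · rw [abs_zero]
    exact abs_nonneg _

/-- a product of a bounded measurable function and a continuous function is integrable on an interval -/
theorem win_sq_int (f : ℕ → ℝ) (N : ℕ) (δ s t : ℝ) :
    IntervalIntegrable (fun v => (win f N δ v * Real.exp (-v)) ^ 2) volume s t := by
  have h1 : IntervalIntegrable (fun v : ℝ => (Real.exp (-v)) ^ 2 * (∑ n ∈ Icc 1 N, |f n|) ^ 2) volume s t :=
    (Continuous.intervalIntegrable (by fun_prop) _ _)
  refine h1.mono_fun ?_ ?_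
  · exact (((win_measurable f N δ).mul (by fun_prop)).pow_const 2).aestronglyMeasurable
  · refine Filter.Eventually.of_forall fun v => ?_
    show ‖(win f N δ v * Real.exp (-v)) ^ 2‖ ≤ ‖(Real.exp (-v)) ^ 2 * (∑ n ∈ Icc 1 N, |f n|) ^ 2‖
    rw [Real.norm_eq_abs, Real.norm_eq_abs, abs_of_nonneg (sq_nonneg _), abs_of_nonneg (by positivity), mul_pow,
      mul_comm]
    refine mul_le_mul_of_nonneg_left ?_ (sq_nonneg _)
    rw [← sq_abs (win f N δ v)]
    exact pow_le_pow_left₀ (abs_nonneg _) (win_abs_le f N δ v) 2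

private theorem ind_int (δ a b y : ℝ) :
    Integrable fun v : ℝ => (if v < a ∧ a ≤ v + δ then (1 : ℝ) else 0) *
      (if y - v < b ∧ b ≤ y - v + δ then (1 : ℝ) else 0) := by
  have h1 : Integrable (Set.indicator (Set.Icc (a - δ) a) fun _ : ℝ => (1 : ℝ)) :=
    (integrable_indicator_iff measurableSet_Icc).2 (integrableOn_const (by simp))
  refine h1.mono' ?_ ?_
  · refine (Measurable.mul ?_ ?_).aestronglyMeasurable
    · refine Measurable.ite ?_ measurable_const measurable_const
      exact (measurableSet_lt measurable_id measurable_const).inter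
        (measurableSet_le measurable_const (measurable_id.add_const δ))
    · refine Measurable.ite ?_ measurable_const measurable_const
      exact (measurableSet_lt (measurable_const.sub measurable_id) measurable_const).inter
        (measurableSet_le measurable_const ((measurable_const.sub measurable_id).add_const δ))
  · refine Filter.Eventually.of_forall fun v => ?_
    by_cases h : v < a ∧ a ≤ v + δ
    · have hv : v ∈ Set.Icc (a - δ) a := ⟨by linarith [h.2], h.1.le⟩
      rw [if_pos h, one_mul, Set.indicator_of_mem hv]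
      split_ifs <;> simp
    · rw [if_neg h, zero_mul, norm_zero]
      exact Set.indicator_nonneg (fun _ _ => zero_le_one) v

theorem double_eq (α β : ℕ → ℝ) (N : ℕ) {δ : ℝ} (hδ : 0 < δ) (y : ℝ) :
    ∑ m ∈ Icc 1 N, ∑ n ∈ Icc 1 N, α m * β n * ker δ (Real.log m + Real.log n - y) =
      (∫ v : ℝ, win α N δ v * win β N δ (y - v)) / δ ^ 2 := by
  have e1 : ∀ v : ℝ, win α N δ v * win β N δ (y - v) = ∑ m ∈ Icc 1 N, ∑ n ∈ Icc 1 N,
      α m * β n * ((if v < Real.log m ∧ Real.log m ≤ v + δ then (1 : ℝ) else 0) *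
        (if y - v < Real.log n ∧ Real.log n ≤ y - v + δ then (1 : ℝ) else 0)) := by
    intro v
    rw [win_ite, win_ite, Finset.sum_mul_sum]
    refine Finset.sum_congr rfl fun m _ => Finset.sum_congr rfl fun n _ => ?_
    split_ifs <;> simp
  have e2 : (∫ v : ℝ, win α N δ v * win β N δ (y - v)) = ∑ m ∈ Icc 1 N, ∑ n ∈ Icc 1 N,
      α m * β n * (∫ v : ℝ, (if v < Real.log m ∧ Real.log m ≤ v + δ then (1 : ℝ) else 0) *
        (if y - v < Real.log n ∧ Real.log n ≤ y - v + δ then (1 : ℝ) else 0)) := by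
    simp_rw [e1]
    rw [integral_finset_sum]
    · refine Finset.sum_congr rfl fun m _ => ?_
      rw [integral_finset_sum]
      · refine Finset.sum_congr rfl fun n _ => ?_
        rw [integral_const_mul]
      · intro n _
        exact (ind_int δ _ _ _).const_mul _
    · intro m _
      exact integrable_finset_sum _ fun n _ => (ind_int δ _ _ _).const_mul _
  rw [e2, Finset.sum_div]
  refine Finset.sum_congr rfl fun m _ => ?_
  rw [Finset.sum_div]
  refine Finset.sum_congr rfl fun n _ => ?_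
  rw [ker_eq2 hδ]
  ring

/-- Proof. By `ker_eq2` (`a := log m`, `b := log n`) and finite sums the double sum is `δ ^ (-2)` times the integral over `v` of
`win α N δ v * win β N δ (y - v)`. The integrand vanishes outside `[a - δ, y - b + δ]`. Cauchy-Schwarz for
`win α N δ v * exp (-v)` and `win β N δ (y - v) * exp (- (y - v))`, with the substitution `v ↦ y - v` in the second factor. -/
theorem bil_cs {α β : ℕ → ℝ} {N : ℕ} {δ y a b : ℝ} (hδ : 0 < δ) (hα : ∀ n, α n ≠ 0 → a ≤ Real.log n)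
    (hβ : ∀ n, β n ≠ 0 → b ≤ Real.log n) {P Q : ℝ}
    (hP : ∫ v in (a - δ)..(y - b + δ), (win α N δ v * Real.exp (-v)) ^ 2 ≤ P)
    (hQ : ∫ v in (b - δ)..(y - a + δ), (win β N δ v * Real.exp (-v)) ^ 2 ≤ Q) (hab : a + b ≤ y + 2 * δ) :
    |∑ m ∈ Icc 1 N, ∑ n ∈ Icc 1 N, α m * β n * ker δ (Real.log m + Real.log n - y)| ≤
      Real.exp y * Real.sqrt (P * Q) / δ ^ 2 := by
  have hle : a - δ ≤ y - b + δ := by linarith
  -- the substitution
  have hsub : ∫ v in (a - δ)..(y - b + δ), (win β N δ (y - v) * Real.exp (-(y - v))) ^ 2 =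
      ∫ v in (b - δ)..(y - a + δ), (win β N δ v * Real.exp (-v)) ^ 2 := by
    rw [intervalIntegral.integral_comp_sub_left (fun v => (win β N δ v * Real.exp (-v)) ^ 2) y]
    congr 1 <;> ring
  have hI1 : IntervalIntegrable (fun v => (win α N δ v * Real.exp (-v)) ^ 2) volume (a - δ) (y - b + δ) :=
    win_sq_int α N δ _ _
  have hI2 : IntervalIntegrable (fun v => (win β N δ (y - v) * Real.exp (-(y - v))) ^ 2) volume (a - δ) (y - b + δ) := by
    have h1 := (win_sq_int β N δ (y - (a - δ)) (y - (y - b + δ))).comp_sub_left y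
    simpa using h1
  have hP0 : 0 ≤ P := le_trans (intervalIntegral.integral_nonneg hle fun v _ => sq_nonneg _) hP
  have hQ0 : 0 ≤ Q := by
    refine le_trans ?_ hQ
    exact intervalIntegral.integral_nonneg (by linarith) fun v _ => sq_nonneg _
  -- the support
  have hsupp : ∀ v : ℝ, v ∉ Set.Icc (a - δ) (y - b + δ) → win α N δ v * win β N δ (y - v) = 0 := by
    intro v hv
    by_contra hne
    have h1 : win α N δ v ≠ 0 := left_ne_zero_of_mul hne
    have h2 : win β N δ (y - v) ≠ 0 := right_ne_zero_of_mul hne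
    unfold win at h1 h2
    obtain ⟨m, hm, hm0⟩ := Finset.exists_ne_zero_of_sum_ne_zero h1
    obtain ⟨n, hn, hn0⟩ := Finset.exists_ne_zero_of_sum_ne_zero h2
    rw [Finset.mem_filter] at hm hn
    have h3 := hα m hm0
    have h4 := hβ n hn0
    exact hv ⟨by linarith [hm.2.2], by linarith [hn.2.2]⟩
  have hint : (∫ v : ℝ, win α N δ v * win β N δ (y - v)) = Real.exp y * ∫ v in (a - δ)..(y - b + δ),
      (win α N δ v * Real.exp (-v)) * (win β N δ (y - v) * Real.exp (-(y - v))) := by
    rw [← setIntegral_eq_integral_of_forall_compl_eq_zero hsupp, integral_Icc_eq_integral_Ioc,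
      ← intervalIntegral.integral_of_le hle, ← intervalIntegral.integral_const_mul]
    congr 1
    funext v
    have e : Real.exp y * (Real.exp (-v) * Real.exp (-(y - v))) = 1 := by
      rw [← Real.exp_add, ← Real.exp_add]
      have : y + (-v + -(y - v)) = 0 := by ring
      rw [this, Real.exp_zero]
    calc win α N δ v * win β N δ (y - v) = win α N δ v * win β N δ (y - v) *
        (Real.exp y * (Real.exp (-v) * Real.exp (-(y - v)))) := by rw [e, mul_one]
      _ = _ := by ring
  obtain ⟨F, hF⟩ : ∃ F : ℝ → ℝ, F = fun v => win α N δ v * Real.exp (-v) := ⟨_, rfl⟩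
  obtain ⟨K, hK⟩ : ∃ K : ℝ → ℝ, K = fun v => win β N δ (y - v) * Real.exp (-(y - v)) := ⟨_, rfl⟩
  have hFm : Measurable F := by
    rw [hF]
    exact (win_measurable α N δ).mul (by fun_prop)
  have hKm : Measurable K := by
    rw [hK]
    exact ((win_measurable β N δ).comp (measurable_const.sub measurable_id)).mul (by fun_prop)
  have hI1' : IntervalIntegrable (fun v => F v ^ 2) volume (a - δ) (y - b + δ) := by
    rw [hF]
    exact hI1
  have hI2' : IntervalIntegrable (fun v => K v ^ 2) volume (a - δ) (y - b + δ) := by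
    rw [hK]
    exact hI2
  have hI3 : IntervalIntegrable (fun v => F v * K v) volume (a - δ) (y - b + δ) := by
    refine (hI1'.add hI2').mono_fun (hFm.mul hKm).aestronglyMeasurable ?_
    refine Filter.Eventually.of_forall fun v => ?_
    show ‖F v * K v‖ ≤ ‖F v ^ 2 + K v ^ 2‖
    rw [Real.norm_eq_abs, Real.norm_eq_abs, abs_of_nonneg (a := F v ^ 2 + K v ^ 2) (by positivity), abs_le]
    constructor <;> nlinarith [sq_nonneg (F v + K v), sq_nonneg (F v - K v), sq_nonneg (F v), sq_nonneg (K v)]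
  have hdis : ∀ s : ℝ, 0 ≤ (∫ v in (a - δ)..(y - b + δ), F v ^ 2) * (s * s) +
      (2 * ∫ v in (a - δ)..(y - b + δ), F v * K v) * s + ∫ v in (a - δ)..(y - b + δ), K v ^ 2 := by
    intro s
    have h1 : 0 ≤ ∫ v in (a - δ)..(y - b + δ), (s * F v + K v) ^ 2 :=
      intervalIntegral.integral_nonneg hle fun v _ => sq_nonneg _
    have h2 : ∫ v in (a - δ)..(y - b + δ), (s * F v + K v) ^ 2 =
        (∫ v in (a - δ)..(y - b + δ), F v ^ 2) * (s * s) +
      (2 * ∫ v in (a - δ)..(y - b + δ), F v * K v) * s + ∫ v in (a - δ)..(y - b + δ), K v ^ 2 := by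
      have e : (fun v => (s * F v + K v) ^ 2) = fun v => (s * s) * F v ^ 2 + (2 * s) * (F v * K v) + K v ^ 2 := by
        funext v
        ring
      rw [e, intervalIntegral.integral_add ((hI1'.const_mul _).add (hI3.const_mul _)) hI2',
        intervalIntegral.integral_add (hI1'.const_mul _) (hI3.const_mul _), intervalIntegral.integral_const_mul,
        intervalIntegral.integral_const_mul]
      ring
    rw [← h2]
    exact h1
  have hdis2 := discrim_le_zero hdis
  unfold discrim at hdis2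
  have hPF : ∫ v in (a - δ)..(y - b + δ), F v ^ 2 ≤ P := by
    rw [hF]
    exact hP
  have hQK : ∫ v in (a - δ)..(y - b + δ), K v ^ 2 ≤ Q := by
    rw [hK]
    exact hsub.trans_le hQ
  have hF0 : 0 ≤ ∫ v in (a - δ)..(y - b + δ), F v ^ 2 := intervalIntegral.integral_nonneg hle fun v _ => sq_nonneg _
  have hK0 : 0 ≤ ∫ v in (a - δ)..(y - b + δ), K v ^ 2 := intervalIntegral.integral_nonneg hle fun v _ => sq_nonneg _
  have hfin : |∫ v in (a - δ)..(y - b + δ), F v * K v| ≤ Real.sqrt (P * Q) := by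
    apply Real.le_sqrt_of_sq_le
    rw [sq_abs]
    have h1 : (∫ v in (a - δ)..(y - b + δ), F v ^ 2) * ∫ v in (a - δ)..(y - b + δ), K v ^ 2 ≤ P * Q :=
      mul_le_mul hPF hQK hK0 hP0
    nlinarith
  rw [double_eq α β N hδ y, hint, abs_div, abs_mul, abs_of_pos (Real.exp_pos y), abs_of_pos (by positivity : 0 < δ ^ 2)]
  rw [hF, hK] at hfin
  exact div_le_div_of_nonneg_right (mul_le_mul_of_nonneg_left hfin (Real.exp_pos y).le) (by positivity)

private theorem abel (a : ℕ → ℝ) (K : ℕ) : ∑ n ∈ Icc 1 (K + 1), a n / n =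
    (∑ n ∈ Icc 1 (K + 1), a n) / ((K : ℝ) + 1) + ∑ n ∈ Icc 1 K, (∑ m ∈ Icc 1 n, a m) / ((n : ℝ) * (n + 1)) := by
  induction K with
  | zero => simp
  | succ K ih =>
    rw [Finset.sum_Icc_succ_top (by omega : 1 ≤ K + 1 + 1), ih, Finset.sum_Icc_succ_top (by omega : 1 ≤ K + 1 + 1) a,
      Finset.sum_Icc_succ_top (by omega : 1 ≤ K + 1) (fun n : ℕ => (∑ m ∈ Icc 1 n, a m) / ((n : ℝ) * (n + 1)))]
    have h1 : (K : ℝ) + 1 ≠ 0 := by positivity
    have h2 : (K : ℝ) + 1 + 1 ≠ 0 := by positivity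
    push_cast
    field_simp
    ring

private theorem tau_sum {N : ℕ} (hN : 1 ≤ N) :
    ∑ n ∈ Icc 1 N, ((n.divisors.card : ℝ)) ^ 2 / n ≤ (1 + Real.log N) ^ 5 := by
  obtain ⟨K, rfl⟩ : ∃ K, N = K + 1 := ⟨N - 1, by omega⟩
  have hT : ∀ n : ℕ, 1 ≤ n → ∑ m ∈ Icc 1 n, ((m.divisors.card : ℝ)) ^ 2 ≤ n * (1 + Real.log n) ^ 4 := by
    intro n hn
    have h1 := Pool.Agent.H43.SI.div_sq 2 n hn
    have h2 : ∀ m : ℕ, (((ArithmeticFunction.zeta : ArithmeticFunction ℕ) ^ 2) m : ℕ) = m.divisors.card := by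
      intro m
      rw [pow_two, ArithmeticFunction.zeta_mul_apply, Finset.card_eq_sum_ones]
      refine Finset.sum_congr rfl fun e he => ?_
      rw [ArithmeticFunction.zeta_apply, if_neg (Nat.pos_of_mem_divisors he).ne']
    simp only [h2] at h1
    exact h1
  rw [abel (fun n => ((n.divisors.card : ℝ)) ^ 2) K]
  have hl0 : 0 ≤ Real.log ((K + 1 : ℕ) : ℝ) := Real.log_natCast_nonneg _
  obtain ⟨l, hl⟩ : ∃ l, l = Real.log ((K + 1 : ℕ) : ℝ) := ⟨_, rfl⟩
  rw [← hl] at hl0
  rw [← hl]
  have e1 : (∑ n ∈ Icc 1 (K + 1), ((n.divisors.card : ℝ)) ^ 2) / ((K : ℝ) + 1) ≤ (1 + l) ^ 4 := by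
    rw [div_le_iff₀ (by positivity), hl]
    refine (hT (K + 1) (by omega)).trans (le_of_eq ?_)
    push_cast
    ring
  have e2 : ∑ n ∈ Icc 1 K, (∑ m ∈ Icc 1 n, ((m.divisors.card : ℝ)) ^ 2) / ((n : ℝ) * (n + 1)) ≤
      (1 + l) ^ 4 * ∑ n ∈ Icc 1 K, (1 / ((n : ℝ) + 1)) := by
    rw [Finset.mul_sum]
    refine Finset.sum_le_sum fun n hn => ?_
    rw [Finset.mem_Icc] at hn
    have hn0 : (0 : ℝ) < n := by exact_mod_cast hn.1
    rw [div_le_iff₀ (by positivity)]
    refine (hT n hn.1).trans ?_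
    have h3 : Real.log n ≤ l := by
      rw [hl]
      exact Real.log_le_log hn0 (by exact_mod_cast (by omega : n ≤ K + 1))
    have h4 : (1 + Real.log n) ^ 4 ≤ (1 + l) ^ 4 :=
      pow_le_pow_left₀ (by linarith [Real.log_natCast_nonneg n]) (by linarith) 4
    calc (n : ℝ) * (1 + Real.log n) ^ 4 ≤ n * (1 + l) ^ 4 := mul_le_mul_of_nonneg_left h4 hn0.le
      _ = (1 + l) ^ 4 * (1 / ((n : ℝ) + 1)) * (n * (n + 1)) := by
        field_simp
  have e3 : ∑ n ∈ Icc 1 K, (1 / ((n : ℝ) + 1)) ≤ l := by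
    rw [hl]
    clear hl hl0 e1 e2
    induction K with
    | zero => simp
    | succ K ih =>
      rw [Finset.sum_Icc_succ_top (by omega)]
      have ih' := ih (by omega)
      have h5 : (0 : ℝ) < K + 1 := by positivity
      have h6 : 1 / ((K : ℝ) + 1 + 1) ≤ Real.log ((K : ℝ) + 1 + 1) - Real.log ((K : ℝ) + 1) := by
        have h7 := Real.log_le_sub_one_of_pos (div_pos h5 (by linarith : (0 : ℝ) < K + 1 + 1))
        rw [Real.log_div h5.ne' (by linarith)] at h7
        have h8 : ((K : ℝ) + 1) / (K + 1 + 1) - 1 = -(1 / ((K : ℝ) + 1 + 1)) := by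
          field_simp
          ring
        rw [h8] at h7
        linarith
      push_cast at ih' ⊢
      linarith
  have e4 : (1 + l) ^ 4 * ∑ n ∈ Icc 1 K, (1 / ((n : ℝ) + 1)) ≤ (1 + l) ^ 4 * l :=
    mul_le_mul_of_nonneg_left e3 (by positivity)
  calc _ ≤ (1 + l) ^ 4 + (1 + l) ^ 4 * l := add_le_add e1 (e2.trans e4)
    _ = (1 + l) ^ 5 := by ring

private theorem card_win {N : ℕ} {δ v : ℝ} (hδ : 0 < δ) (hδ1 : δ ≤ 1) (hv : 1 ≤ δ * Real.exp v) :
    (((Icc 1 N).filter (fun n : ℕ => v < Real.log n ∧ Real.log n ≤ v + δ)).card : ℝ) ≤ 3 * δ * Real.exp v := by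
  have h1 : (Icc 1 N).filter (fun n : ℕ => v < Real.log n ∧ Real.log n ≤ v + δ) ⊆
      Ioc ⌊Real.exp v⌋₊ ⌊Real.exp (v + δ)⌋₊ := by
    intro n hn
    rw [Finset.mem_filter, Finset.mem_Icc] at hn
    have hn0 : (0 : ℝ) < n := by exact_mod_cast hn.1.1
    rw [Finset.mem_Ioc, Nat.floor_lt (Real.exp_pos v).le, Nat.le_floor_iff (Real.exp_pos _).le]
    exact ⟨(Real.lt_log_iff_exp_lt hn0).1 hn.2.1, (Real.log_le_iff_le_exp hn0).1 hn.2.2⟩
  have h2 := Finset.card_le_card h1
  rw [Nat.card_Ioc] at h2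
  have h3 : ((⌊Real.exp (v + δ)⌋₊ - ⌊Real.exp v⌋₊ : ℕ) : ℝ) ≤ Real.exp (v + δ) - Real.exp v + 1 := by
    have h4 := Nat.floor_le (Real.exp_pos (v + δ)).le
    have h5 := Nat.lt_floor_add_one (Real.exp v)
    rcases Nat.le_total ⌊Real.exp v⌋₊ ⌊Real.exp (v + δ)⌋₊ with h6 | h6
    · rw [Nat.cast_sub h6]
      linarith
    · rw [Nat.sub_eq_zero_of_le h6, Nat.cast_zero]
      have h7 : Real.exp v ≤ Real.exp (v + δ) := Real.exp_le_exp.2 (by linarith)
      linarith
  have h4 : Real.exp δ ≤ 1 + 2 * δ := by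
    have h8 := Real.abs_exp_sub_one_sub_id_le (x := δ) (by rw [abs_of_pos hδ]; exact hδ1)
    rw [abs_le] at h8
    nlinarith [h8.2]
  have h5 : Real.exp (v + δ) ≤ Real.exp v * (1 + 2 * δ) := by
    rw [Real.exp_add]
    exact mul_le_mul_of_nonneg_left h4 (Real.exp_pos v).le
  have h6 : (((Icc 1 N).filter (fun n : ℕ => v < Real.log n ∧ Real.log n ≤ v + δ)).card : ℝ) ≤
      ((⌊Real.exp (v + δ)⌋₊ - ⌊Real.exp v⌋₊ : ℕ) : ℝ) := by exact_mod_cast h2
  nlinarith

private theorem ind_le {δ : ℝ} (hδ : 0 < δ) (L s t : ℝ) (hst : s ≤ t) :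
    ∫ v in s..t, (if v < L ∧ L ≤ v + δ then Real.exp (-v) else 0) ≤ δ * Real.exp (δ - L) := by
  have h1 : ∀ v : ℝ, (if v < L ∧ L ≤ v + δ then Real.exp (-v) else 0) ≤
      (Set.Ico (L - δ) L).indicator (fun _ => Real.exp (δ - L)) v := by
    intro v
    split_ifs with h
    · rw [Set.indicator_of_mem (show v ∈ Set.Ico (L - δ) L from ⟨by linarith [h.2], h.1⟩)]
      exact Real.exp_le_exp.2 (by linarith [h.2])
    · exact Set.indicator_nonneg (fun _ _ => (Real.exp_pos _).le) v
  have h2 : Integrable ((Set.Ico (L - δ) L).indicator fun _ : ℝ => Real.exp (δ - L)) :=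
    (integrable_indicator_iff measurableSet_Ico).2 (integrableOn_const (by simp))
  have h3 : Integrable fun v : ℝ => (if v < L ∧ L ≤ v + δ then Real.exp (-v) else 0) := by
    refine h2.mono' ?_ ?_
    · refine (Measurable.ite ?_ (by fun_prop) measurable_const).aestronglyMeasurable
      exact (measurableSet_lt measurable_id measurable_const).inter
        (measurableSet_le measurable_const (measurable_id.add_const δ))
    · refine Filter.Eventually.of_forall fun v => ?_
      rw [Real.norm_eq_abs, abs_of_nonneg]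
      · exact h1 v
      · split_ifs
        · exact (Real.exp_pos _).le
        · exact le_rfl
  rw [intervalIntegral.integral_of_le hst]
  calc ∫ v in Set.Ioc s t, (if v < L ∧ L ≤ v + δ then Real.exp (-v) else 0)
      ≤ ∫ v : ℝ, (if v < L ∧ L ≤ v + δ then Real.exp (-v) else 0) := by
        refine setIntegral_le_integral h3 (Filter.Eventually.of_forall fun v => ?_)
        show (0 : ℝ) ≤ if v < L ∧ L ≤ v + δ then Real.exp (-v) else 0
        split_ifs
        · exact (Real.exp_pos _).le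
        · exact le_rfl
    _ ≤ ∫ v : ℝ, (Set.Ico (L - δ) L).indicator (fun _ => Real.exp (δ - L)) v := integral_mono h3 h2 h1
    _ = δ * Real.exp (δ - L) := by
        rw [integral_indicator measurableSet_Ico, setIntegral_const, smul_eq_mul, Measure.real, Real.volume_Ico,
          ENNReal.toReal_ofReal (by linarith)]
        ring

/-- Proof. A window has at most `3 δ exp v` elements, for `v ≥ b - δ`, so
`(win β N δ v) ^ 2 ≤ 3 δ exp v * ∑ (τ n) ^ 2` over the window (Cauchy-Schwarz). Hence the integral is at most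
`3 δ ∑_(n ≤ N) (τ n) ^ 2 ∫ exp (-v)` over `log n - δ ≤ v < log n`, which is `≤ 3 e δ ^ 2 ∑ (τ n) ^ 2 / n`; `H43.SI.div_sq` with
`r = 2` and partial summation. -/
theorem win_tau {β : ℕ → ℝ} {N : ℕ} (hN : 2 ≤ N) {δ b t : ℝ} (hδ : 0 < δ) (hδ1 : δ ≤ 1)
    (hβ : ∀ n, |β n| ≤ (n.divisors.card : ℝ)) (hb : 1 ≤ δ * Real.exp (b - δ)) (hbt : b - δ ≤ t) :
    ∫ v in (b - δ)..t, (win β N δ v * Real.exp (-v)) ^ 2 ≤ 100 * δ ^ 2 * (1 + Real.log N) ^ 5 := by
  have h1 : ∀ v ∈ Set.Icc (b - δ) t, (win β N δ v * Real.exp (-v)) ^ 2 ≤ 3 * δ * ∑ n ∈ Icc 1 N,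
      ((n.divisors.card : ℝ)) ^ 2 * (if v < Real.log n ∧ Real.log n ≤ v + δ then Real.exp (-v) else 0) := by
    intro v hv
    have hv1 : 1 ≤ δ * Real.exp v :=
      hb.trans (mul_le_mul_of_nonneg_left (Real.exp_le_exp.2 hv.1) hδ.le)
    have h2 : (win β N δ v) ^ 2 ≤ 3 * δ * Real.exp v *
        ∑ n ∈ (Icc 1 N).filter (fun n : ℕ => v < Real.log n ∧ Real.log n ≤ v + δ), ((n.divisors.card : ℝ)) ^ 2 := by
      unfold win
      have h3 := sq_sum_le_card_mul_sum_sq (s := (Icc 1 N).filter (fun n : ℕ => v < Real.log n ∧ Real.log n ≤ v + δ))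
        (f := β)
      refine h3.trans ?_
      refine mul_le_mul (card_win hδ hδ1 hv1) (Finset.sum_le_sum fun n _ => ?_)
        (Finset.sum_nonneg fun _ _ => sq_nonneg _) (by positivity)
      rw [← sq_abs (β n)]
      exact pow_le_pow_left₀ (abs_nonneg _) (hβ n) 2
    rw [mul_pow]
    have h4 : Real.exp v * Real.exp (-v) ^ 2 = Real.exp (-v) := by
      rw [pow_two, ← mul_assoc, ← Real.exp_add, add_neg_cancel, Real.exp_zero, one_mul]
    calc (win β N δ v) ^ 2 * Real.exp (-v) ^ 2 ≤ (3 * δ * Real.exp v *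
        ∑ n ∈ (Icc 1 N).filter (fun n : ℕ => v < Real.log n ∧ Real.log n ≤ v + δ), ((n.divisors.card : ℝ)) ^ 2) *
          Real.exp (-v) ^ 2 := mul_le_mul_of_nonneg_right h2 (sq_nonneg _)
      _ = 3 * δ * (∑ n ∈ (Icc 1 N).filter (fun n : ℕ => v < Real.log n ∧ Real.log n ≤ v + δ),
          ((n.divisors.card : ℝ)) ^ 2) * (Real.exp v * Real.exp (-v) ^ 2) := by ring
      _ = _ := by
        rw [h4, Finset.sum_filter, mul_assoc, Finset.sum_mul]
        congr 1
        refine Finset.sum_congr rfl fun n _ => ?_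
        split_ifs <;> simp
  have hii : ∀ n : ℕ, IntervalIntegrable (fun v : ℝ => ((n.divisors.card : ℝ)) ^ 2 *
      (if v < Real.log n ∧ Real.log n ≤ v + δ then Real.exp (-v) else 0)) volume (b - δ) t := by
    intro n
    refine IntervalIntegrable.const_mul ?_ _
    have h5 : IntervalIntegrable (fun v : ℝ => Real.exp (-v)) volume (b - δ) t :=
      Continuous.intervalIntegrable (by fun_prop) _ _
    refine h5.mono_fun ?_ ?_
    · refine (Measurable.ite ?_ (by fun_prop) measurable_const).aestronglyMeasurable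
      exact (measurableSet_lt measurable_id measurable_const).inter
        (measurableSet_le measurable_const (measurable_id.add_const δ))
    · refine Filter.Eventually.of_forall fun v => ?_
      show ‖(if v < Real.log n ∧ Real.log n ≤ v + δ then Real.exp (-v) else 0)‖ ≤ ‖Real.exp (-v)‖
      split_ifs
      · exact le_rfl
      · rw [norm_zero]
        exact norm_nonneg _
  calc ∫ v in (b - δ)..t, (win β N δ v * Real.exp (-v)) ^ 2
      ≤ ∫ v in (b - δ)..t, 3 * δ * ∑ n ∈ Icc 1 N,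
      ((n.divisors.card : ℝ)) ^ 2 * (if v < Real.log n ∧ Real.log n ≤ v + δ then Real.exp (-v) else 0) := by
        refine intervalIntegral.integral_mono_on hbt (win_sq_int β N δ _ _) ?_ h1
        exact (IntervalIntegrable.sum _ fun n _ => hii n).const_mul _ |> fun h => by simpa using h
    _ = 3 * δ * ∑ n ∈ Icc 1 N, ((n.divisors.card : ℝ)) ^ 2 * ∫ v in (b - δ)..t,
        (if v < Real.log n ∧ Real.log n ≤ v + δ then Real.exp (-v) else 0) := by
        rw [intervalIntegral.integral_const_mul, intervalIntegral.integral_finset_sum]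
        · congr 1
          refine Finset.sum_congr rfl fun n _ => ?_
          rw [intervalIntegral.integral_const_mul]
        · intro n _
          exact hii n
    _ ≤ 3 * δ * ∑ n ∈ Icc 1 N, (3 * δ) * (((n.divisors.card : ℝ)) ^ 2 / n) := by
        refine mul_le_mul_of_nonneg_left (Finset.sum_le_sum fun n hn => ?_) (by positivity)
        rw [Finset.mem_Icc] at hn
        have hn0 : (0 : ℝ) < n := by exact_mod_cast hn.1
        have h6 := ind_le hδ (Real.log n) (b - δ) t hbt
        have h7 : Real.exp (δ - Real.log n) ≤ 3 / n := by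
          rw [Real.exp_sub, Real.exp_log hn0]
          refine div_le_div_of_nonneg_right ?_ hn0.le
          exact (Real.exp_le_exp.2 hδ1).trans Real.exp_one_lt_three.le
        calc ((n.divisors.card : ℝ)) ^ 2 * ∫ v in (b - δ)..t,
              (if v < Real.log n ∧ Real.log n ≤ v + δ then Real.exp (-v) else 0)
            ≤ ((n.divisors.card : ℝ)) ^ 2 * (δ * (3 / n)) :=
              mul_le_mul_of_nonneg_left (h6.trans (mul_le_mul_of_nonneg_left h7 hδ.le)) (sq_nonneg _)
          _ = _ := by ring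
    _ = 9 * δ ^ 2 * ∑ n ∈ Icc 1 N, ((n.divisors.card : ℝ)) ^ 2 / n := by
        rw [← Finset.mul_sum]
        ring
    _ ≤ 9 * δ ^ 2 * (1 + Real.log N) ^ 5 := mul_le_mul_of_nonneg_left (tau_sum (by omega)) (by positivity)
    _ ≤ 100 * δ ^ 2 * (1 + Real.log N) ^ 5 := by
        have h8 : 0 ≤ (1 + Real.log N) ^ 5 := by
          have := Real.log_natCast_nonneg N
          positivity
        refine mul_le_mul_of_nonneg_right ?_ h8
        nlinarith [sq_nonneg δ]

end Pool.Agent.H36.WH
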