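import Pool.Agent.H36.WH.Ker

/-!
# WILD, chapter H: the functions `D = Λ - 1`, `E = log - τ`
-/

set_option autoImplicit false

namespace Pool.Agent.H36.WH

open Finset ArithmeticFunction

/-- the Möbius function -/
noncomputable def mo : ArithmeticFunction ℝ := ((moebius : ArithmeticFunction ℤ) : ArithmeticFunction ℝ)

/-- the function one -/
noncomputable def ze : ArithmeticFunction ℝ := ((zeta : ArithmeticFunction ℕ) : ArithmeticFunction ℝ)

/-- `Λ - 1` -/
noncomputable def dd : ArithmeticFunction ℝ := vonMangoldt - ze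

/-- `log - τ` -/
noncomputable def ee : ArithmeticFunction ℝ := ArithmeticFunction.log - ze * ze

/-- the values at `n ≤ U` -/
noncomputable def lo (U : ℕ) (f : ArithmeticFunction ℝ) : ArithmeticFunction ℝ :=
  ⟨fun n => if n ≤ U then f n else 0, by simp⟩

/-- the values at `n > U` -/
noncomputable def hi (U : ℕ) (f : ArithmeticFunction ℝ) : ArithmeticFunction ℝ :=
  ⟨fun n => if n ≤ U then 0 else f n, by simp⟩

theorem lo_apply (U : ℕ) (f : ArithmeticFunction ℝ) (n : ℕ) : lo U f n = if n ≤ U then f n else 0 := rfl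

theorem hi_apply (U : ℕ) (f : ArithmeticFunction ℝ) (n : ℕ) : hi U f n = if n ≤ U then 0 else f n := rfl

theorem lo_add_hi (U : ℕ) (f : ArithmeticFunction ℝ) : lo U f + hi U f = f := by
  ext n
  rw [ArithmeticFunction.add_apply, lo_apply, hi_apply]
  split_ifs <;> simp

theorem mo_mul_ze : mo * ze = 1 := by
  unfold mo ze
  exact coe_moebius_mul_coe_zeta

theorem dd_mul_ze : dd * ze = ee := by
  unfold dd ee ze
  rw [sub_mul, vonMangoldt_mul_zeta]

/-- `D = μ_(≤U) * E - μ_(≤U) * D_(≤V) * 1 + μ_(>U) * D_(>V) * 1 + D_(≤V)`.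
Proof. `D * 1 = E`, `μ * 1 = 1` (Mathlib: `vonMangoldt_mul_zeta`, `coe_moebius_mul_coe_zeta`), `D = μ * E`, ring. -/
theorem dd_eq (U V : ℕ) : dd = lo U mo * ee - lo U mo * lo V dd * ze + hi U mo * ze * hi V dd + lo V dd := by
  have h1 : lo U mo = mo - hi U mo := eq_sub_of_add_eq (lo_add_hi U mo)
  have h2 : hi V dd = dd - lo V dd := by
    rw [eq_sub_iff_add_eq, add_comm]
    exact lo_add_hi V dd
  rw [h1, h2, ← dd_mul_ze]
  linear_combination (-(dd - lo V dd)) * mo_mul_ze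

theorem abs_mo_le (n : ℕ) : |mo n| ≤ 1 := by
  have h : mo n = ((moebius n : ℤ) : ℝ) := rfl
  rw [h]
  have h1 : |moebius n| ≤ 1 := abs_moebius_le_one
  exact_mod_cast h1

theorem ze_le (n : ℕ) : 0 ≤ ze n ∧ ze n ≤ 1 := by
  have h : ze n = ((zeta n : ℕ) : ℝ) := rfl
  rw [h, zeta_apply]
  split_ifs <;> simp

/-- Proof. `μ_(>U) * 1` is at most `τ` and vanishes for `n ≤ U`. -/
theorem beta_le (U n : ℕ) : |(hi U mo * ze) n| ≤ if n ≤ U then 0 else (n.divisors.card : ℝ) := by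
  rw [ArithmeticFunction.mul_apply]
  split_ifs with h
  · rw [Finset.sum_eq_zero, abs_zero]
    intro x hx
    have h1 := Nat.mem_divisorsAntidiagonal.1 hx
    have h2 : x.1 ≤ U := (Nat.le_of_dvd (Nat.pos_of_ne_zero h1.2) ⟨x.2, h1.1.symm⟩).trans h
    rw [hi_apply, if_pos h2, zero_mul]
  · refine (Finset.abs_sum_le_sum_abs _ _).trans ?_
    refine (Finset.sum_le_card_nsmul _ _ 1 fun x _ => ?_).trans ?_
    · rw [abs_mul, hi_apply]
      have h1 : |if x.1 ≤ U then (0 : ℝ) else mo x.1| ≤ 1 := by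
        split_ifs
        · simp
        · exact abs_mo_le _
      have h2 : |ze x.2| ≤ 1 := by
        rw [abs_of_nonneg (ze_le _).1]
        exact (ze_le _).2
      exact mul_le_one₀ h1 (abs_nonneg _) h2
    · rw [nsmul_eq_mul, mul_one, ← Nat.map_div_right_divisors, Finset.card_map]

/-- Proof. Pairs `a, b ≤ N` with `a b > N` have `log a + log b - y ≥ 2 δ` (`ker_of_ge`). -/
theorem sm_mul {δ : ℝ} (f g : ArithmeticFunction ℝ) {N : ℕ} {y : ℝ} (hN : Real.exp (y + 2 * δ) ≤ N) :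
    sm (⇑(f * g)) N δ y = ∑ a ∈ Icc 1 N, ∑ b ∈ Icc 1 N, f a * g b * ker δ (Real.log a + Real.log b - y) := by
  classical
  have e1 : sm (⇑(f * g)) N δ y = ∑ n ∈ Icc 1 N, ∑ x ∈ n.divisorsAntidiagonal,
      f x.1 * g x.2 * ker δ (Real.log x.1 + Real.log x.2 - y) := by
    unfold sm
    refine Finset.sum_congr rfl fun n _ => ?_
    rw [ArithmeticFunction.mul_apply, Finset.sum_mul]
    refine Finset.sum_congr rfl fun x hx => ?_
    obtain ⟨h1, h2⟩ := Nat.mem_divisorsAntidiagonal.1 hx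
    have h3 : x.1 ≠ 0 := by
      rintro h
      rw [h, zero_mul] at h1
      exact h2 h1.symm
    have h4 : x.2 ≠ 0 := by
      rintro h
      rw [h, mul_zero] at h1
      exact h2 h1.symm
    rw [← Real.log_mul (by exact_mod_cast h3) (by exact_mod_cast h4), ← Nat.cast_mul, h1]
  have e2 : ∑ a ∈ Icc 1 N, ∑ b ∈ Icc 1 N, f a * g b * ker δ (Real.log a + Real.log b - y) =
      ∑ x ∈ (Icc 1 N ×ˢ Icc 1 N).filter (fun x : ℕ × ℕ => x.1 * x.2 ≤ N),
        f x.1 * g x.2 * ker δ (Real.log x.1 + Real.log x.2 - y) := by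
    rw [← Finset.sum_product', Finset.sum_filter]
    refine Finset.sum_congr rfl fun x hx => ?_
    rw [Finset.mem_product, Finset.mem_Icc, Finset.mem_Icc] at hx
    split_ifs with h
    · rfl
    · rw [ker_of_ge, mul_zero]
      have h3 : (x.1 : ℝ) ≠ 0 := by exact_mod_cast (by omega : x.1 ≠ 0)
      have h4 : (x.2 : ℝ) ≠ 0 := by exact_mod_cast (by omega : x.2 ≠ 0)
      rw [← Real.log_mul h3 h4]
      have h5 : (N : ℝ) ≤ (x.1 : ℝ) * x.2 := by exact_mod_cast (by omega : N ≤ x.1 * x.2)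
      have h6 : y + 2 * δ ≤ Real.log ((x.1 : ℝ) * x.2) := by
        rw [Real.le_log_iff_exp_le (lt_of_lt_of_le (Real.exp_pos _) (hN.trans h5))]
        exact hN.trans h5
      linarith
  have e3 : ∀ x ∈ (Icc 1 N ×ˢ Icc 1 N).filter (fun x : ℕ × ℕ => x.1 * x.2 ≤ N), x.1 * x.2 ∈ Icc 1 N := by
    intro x hx
    rw [Finset.mem_filter, Finset.mem_product, Finset.mem_Icc, Finset.mem_Icc] at hx
    rw [Finset.mem_Icc]
    exact ⟨Nat.mul_pos hx.1.1.1 hx.1.2.1, hx.2⟩
  rw [e1, e2, ← Finset.sum_fiberwise_of_maps_to e3]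
  refine Finset.sum_congr rfl fun n hn => ?_
  rw [Finset.mem_Icc] at hn
  refine Finset.sum_congr ?_ fun _ _ => rfl
  ext x
  rw [Nat.mem_divisorsAntidiagonal, Finset.mem_filter, Finset.mem_filter, Finset.mem_product, Finset.mem_Icc,
    Finset.mem_Icc]
  constructor
  · rintro ⟨h1, h2⟩
    have h3 : 0 < x.1 := Nat.pos_of_ne_zero fun h => h2 (by rw [← h1, h, zero_mul])
    have h4 : 0 < x.2 := Nat.pos_of_ne_zero fun h => h2 (by rw [← h1, h, mul_zero])
    have h5 : x.1 ≤ n := Nat.le_of_dvd (by omega) ⟨x.2, h1.symm⟩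
    have h6 : x.2 ≤ n := Nat.le_of_dvd (by omega) ⟨x.1, by rw [← h1]; exact mul_comm _ _⟩
    exact ⟨⟨⟨⟨h3, h5.trans hn.2⟩, ⟨h4, h6.trans hn.2⟩⟩, h1.trans_le hn.2⟩, h1⟩
  · rintro ⟨_, h1⟩
    exact ⟨h1, by omega⟩

end Pool.Agent.H36.WH
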