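import Pool.Agent.H36.WH.Typ

/-!
# WILD, chapter H: primes in all intervals `[x, x + x ^ (9/10)]`
-/

set_option autoImplicit false

namespace Pool.Agent.H36.WH

open Finset MeasureTheory

/-- Proof. `dd_eq` with `U = V = ⌊X ^ (2/5)⌋`, `X = x`, `N = ⌈8 x⌉`: `sm dd` is at most `3 X / 16` in absolute value (`lo V dd` does
not contribute: `log n - log X ≤ 0`, `ker_of_le`), `sm ze ≥ X - 2/δ` (`smo_one`), so `sm Λ ≥ 3 X / 4`. By `sm_eq` there is `w` in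
`[0, δ]` with `win Λ N δ (log X + w) ≥ (3/4) δ X`. The prime powers `p ^ k`, `k ≥ 2`, in the window have
`Λ`-sum at most `C √X (log X) ^ 2`. So the number of the primes in `(x, x exp (2 δ)]` is at least
`(3/4) δ x / log (8 x) - ... ≥ x ^ (9/10) / (8 log x)`, and `x exp (2 δ) ≤ x + 4 δ x = x + x ^ (9/10)`. -/
theorem primes_all : ∃ x0 : ℝ, 10 ≤ x0 ∧ ∀ x : ℝ, x0 ≤ x →
    x ^ ((9 : ℝ) / 10) / (8 * Real.log x) ≤
      (((Ioc ⌊x⌋₊ ⌊x + x ^ ((9 : ℝ) / 10)⌋₊).filter Nat.Prime).card : ℝ) := by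
  sorry

/-- The same for all lengths. Proof. Disjoint intervals `(t, t + t ^ (9/10)]`. -/
theorem primes_le : ∃ c x0 : ℝ, 0 < c ∧ 10 ≤ x0 ∧ ∀ x h : ℝ, x0 ≤ x → x ^ ((9 : ℝ) / 10) ≤ h → h ≤ x →
    c * h / Real.log x ≤ (((Ioc ⌊x⌋₊ ⌊x + h⌋₊).filter Nat.Prime).card : ℝ) := by
  sorry

end Pool.Agent.H36.WH
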