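import Mathlib

/-!
# WILD, chapter H (primes in all intervals `[x, x + x ^ (9/10)]`): windows and the triangular kernel

`win f N δ y` is the sum of `f n` over the `n ≤ N` with `y < log n ≤ y + δ`, `ker δ` the triangular function with support
`[0, 2 δ]` and integral one, `sm f N δ y` the sum of `f n * ker δ (log n - y)` over the `n ≤ N`.

Plan of the chapter (`D = Λ - 1`, `E = log - τ = D * 1`): `Idn`: for `n > V`,
`D = μ_(≤U) * E - μ_(≤U) * D_(≤V) * 1 + μ_(>U) * D_(>V) * 1`. `Win`: the windows of `D` are small in the mean square. `Bil`: the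
last term by Cauchy-Schwarz and the kernel identity. `Smo`, `Ty1`, `Mob`: the first two terms; their main terms have the
factor `∑_(a ≤ U) μ(a)/a`. `Fin`: conclusion.
-/

set_option autoImplicit false

namespace Pool.Agent.H36.WH

open Finset MeasureTheory

/-- the sum of `f` over the `n ≤ N` with `y < log n ≤ y + δ` -/
noncomputable def win (f : ℕ → ℝ) (N : ℕ) (δ y : ℝ) : ℝ :=
  ∑ n ∈ (Icc 1 N).filter (fun n : ℕ => y < Real.log n ∧ Real.log n ≤ y + δ), f n

/-- the triangular function -/
noncomputable def ker (δ u : ℝ) : ℝ := max 0 (δ - |u - δ|) / δ ^ 2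

/-- the smooth sum -/
noncomputable def sm (f : ℕ → ℝ) (N : ℕ) (δ y : ℝ) : ℝ := ∑ n ∈ Icc 1 N, f n * ker δ (Real.log n - y)

theorem ker_nonneg (δ u : ℝ) : 0 ≤ ker δ u := div_nonneg (le_max_left _ _) (sq_nonneg _)

theorem ker_le {δ : ℝ} (hδ : 0 < δ) (u : ℝ) : ker δ u ≤ 1 / δ := by
  unfold ker
  rw [div_le_div_iff₀ (by positivity) hδ, one_mul]
  have h1 : max 0 (δ - |u - δ|) ≤ δ := max_le hδ.le (by linarith [abs_nonneg (u - δ)])
  calc max 0 (δ - |u - δ|) * δ ≤ δ * δ := mul_le_mul_of_nonneg_right h1 hδ.le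
    _ = δ ^ 2 := by ring

theorem ker_of_le {δ u : ℝ} (hu : u ≤ 0) : ker δ u = 0 := by
  unfold ker
  rw [max_eq_left, zero_div]
  have := neg_abs_le (u - δ)
  linarith

theorem ker_of_ge {δ u : ℝ} (hu : 2 * δ ≤ u) : ker δ u = 0 := by
  unfold ker
  rw [max_eq_left, zero_div]
  have := le_abs_self (u - δ)
  linarith

/-- Proof. The set of the `v` with `v < a ≤ v + δ` and `y - v < b ≤ y - v + δ` is an interval of length
`max 0 (δ - |u - δ|)`, for `u = a + b - y`. -/
theorem ker_eq2 {δ : ℝ} (hδ : 0 < δ) (a b y : ℝ) :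
    ker δ (a + b - y) = (∫ v : ℝ, (if v < a ∧ a ≤ v + δ then (1 : ℝ) else 0) *
      (if y - v < b ∧ b ≤ y - v + δ then (1 : ℝ) else 0)) / δ ^ 2 := by
  have key : (∫ v : ℝ, (if v < a ∧ a ≤ v + δ then (1 : ℝ) else 0) *
      (if y - v < b ∧ b ≤ y - v + δ then (1 : ℝ) else 0)) = max 0 (δ - |a + b - y - δ|) := by
    obtain ⟨l, hl⟩ : ∃ l : ℝ, l = max (a - δ) (y - b) := ⟨_, rfl⟩
    obtain ⟨r, hr⟩ : ∃ r : ℝ, r = min a (y - b + δ) := ⟨_, rfl⟩
    have hae : (fun v : ℝ => (if v < a ∧ a ≤ v + δ then (1 : ℝ) else 0) *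
        (if y - v < b ∧ b ≤ y - v + δ then (1 : ℝ) else 0)) =ᵐ[volume]
        (Set.Ioo l r).indicator fun _ => (1 : ℝ) := by
      have h1 : ∀ᵐ v : ℝ, v ≠ l := by
        rw [ae_iff]
        simp
      have h2 : ∀ᵐ v : ℝ, v ≠ r := by
        rw [ae_iff]
        simp
      filter_upwards [h1, h2] with v hv1 hv2
      by_cases hv : v ∈ Set.Ioo l r
      · rw [Set.indicator_of_mem hv]
        obtain ⟨h3, h4⟩ := hv
        rw [hl] at h3
        rw [hr] at h4
        have h5 := (max_lt_iff.1 h3)
        have h6 := (lt_min_iff.1 h4)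
        rw [if_pos ⟨h6.1, by linarith [h5.1]⟩, if_pos ⟨by linarith [h5.2], by linarith [h6.2]⟩, one_mul]
      · rw [Set.indicator_of_notMem hv]
        by_contra hne
        have h3 := left_ne_zero_of_mul hne
        have h4 := right_ne_zero_of_mul hne
        have h5 : v < a ∧ a ≤ v + δ := by
          by_contra h
          exact h3 (if_neg h)
        have h6 : y - v < b ∧ b ≤ y - v + δ := by
          by_contra h
          exact h4 (if_neg h)
        apply hv
        constructor
        · refine lt_of_le_of_ne ?_ (Ne.symm hv1)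
          rw [hl]
          exact max_le (by linarith [h5.2]) (by linarith [h6.1])
        · refine lt_of_le_of_ne ?_ hv2
          rw [hr]
          exact le_min h5.1.le (by linarith [h6.2])
    rw [integral_congr_ae hae, integral_indicator measurableSet_Ioo]
    have hrl : r - l = δ - |a + b - y - δ| := by
      rcases le_total (a + b - y) δ with h | h
      · rw [abs_of_nonpos (by linarith), hl, hr, max_eq_right (by linarith), min_eq_left (by linarith)]
        ring
      · rw [abs_of_nonneg (by linarith), hl, hr, max_eq_left (by linarith), min_eq_right (by linarith)]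
        ring
    rw [← hrl]
    rcases le_total l r with h | h
    · rw [← integral_Ioc_eq_integral_Ioo, ← intervalIntegral.integral_of_le h, intervalIntegral.integral_const, smul_eq_mul,
        mul_one, max_eq_right (by linarith)]
    · rw [Set.Ioo_eq_empty (by linarith : ¬ l < r), Measure.restrict_empty, integral_zero_measure,
        max_eq_left (by linarith)]
  rw [key]
  rfl

/-- Proof. `ker_eq2` for `b = y = 0`. -/
theorem ker_eq1 {δ : ℝ} (hδ : 0 < δ) (u : ℝ) :
    ker δ u = (∫ w in (0 : ℝ)..δ, if w < u ∧ u ≤ w + δ then (1 : ℝ) else 0) / δ ^ 2 := by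
  have h := ker_eq2 hδ u 0 0
  rw [add_zero, sub_zero] at h
  rw [h, intervalIntegral.integral_of_le hδ.le, ← integral_indicator measurableSet_Ioc]
  congr 2
  funext w
  by_cases hw : w ∈ Set.Ioc 0 δ
  · rw [Set.indicator_of_mem hw, if_pos (c := 0 - w < 0 ∧ 0 ≤ 0 - w + δ) ⟨by linarith [hw.1], by linarith [hw.2]⟩,
      mul_one]
  · rw [Set.indicator_of_notMem hw, if_neg (c := 0 - w < 0 ∧ 0 ≤ 0 - w + δ)
      (fun h => hw ⟨by linarith [h.1], by linarith [h.2]⟩), mul_zero]

private theorem ind_interval (u δ s t : ℝ) :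
    IntervalIntegrable (fun w : ℝ => if w < u ∧ u ≤ w + δ then (1 : ℝ) else 0) volume s t := by
  refine (intervalIntegrable_const (c := (1 : ℝ))).mono_fun ?_ ?_
  · refine (Measurable.ite ?_ measurable_const measurable_const).aestronglyMeasurable
    exact (measurableSet_lt measurable_id measurable_const).inter
      (measurableSet_le measurable_const (measurable_id.add_const δ))
  · refine Filter.Eventually.of_forall fun v => ?_
    show ‖(if v < u ∧ u ≤ v + δ then (1 : ℝ) else 0)‖ ≤ ‖(1 : ℝ)‖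
    split_ifs <;> simp

/-- Proof. `ker_eq1` and finite sums of integrals. -/
theorem sm_eq {δ : ℝ} (hδ : 0 < δ) (f : ℕ → ℝ) (N : ℕ) (y : ℝ) :
    sm f N δ y = (∫ w in (0 : ℝ)..δ, win f N δ (y + w)) / δ ^ 2 := by
  have e1 : (∫ w in (0 : ℝ)..δ, win f N δ (y + w)) = ∑ n ∈ Icc 1 N,
      f n * ∫ w in (0 : ℝ)..δ, if w < Real.log n - y ∧ Real.log n - y ≤ w + δ then (1 : ℝ) else 0 := by
    have e2 : ∀ w : ℝ, win f N δ (y + w) = ∑ n ∈ Icc 1 N,
        f n * (if w < Real.log n - y ∧ Real.log n - y ≤ w + δ then (1 : ℝ) else 0) := by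
      intro w
      unfold win
      rw [Finset.sum_filter]
      refine Finset.sum_congr rfl fun n _ => ?_
      by_cases h : y + w < Real.log n ∧ Real.log n ≤ y + w + δ
      · rw [if_pos h, if_pos ⟨by linarith [h.1], by linarith [h.2]⟩, mul_one]
      · rw [if_neg h, if_neg (fun h' => h ⟨by linarith [h'.1], by linarith [h'.2]⟩), mul_zero]
    simp_rw [e2]
    rw [intervalIntegral.integral_finset_sum]
    · refine Finset.sum_congr rfl fun n _ => ?_
      rw [intervalIntegral.integral_const_mul]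
    · intro n _
      exact (ind_interval _ _ _ _).const_mul _
  rw [e1, Finset.sum_div]
  unfold sm
  refine Finset.sum_congr rfl fun n _ => ?_
  rw [ker_eq1 hδ]
  ring

end Pool.Agent.H36.WH
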