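import Pool.Agent.H43.SI.Msum
import Pool.Agent.H36.WH.Def

/-!
# WILD, chapter H: the sum of `μ(n)/n`
-/

set_option autoImplicit false

namespace Pool.Agent.H36.WH

open Finset

/-- Proof. `N ∑_(a ≤ N) μ(a)/a = 1 + ∑_(a ≤ N) μ(a) (N/a - ⌊N/a⌋)`. Let `K` be about `(log N) ^ (A + 1)`. The terms with `a ≤ N/K`
are at most `N/K`, the others by Abel summation: the variation of `N/a - ⌊N/a⌋` on `(N/K, N]` is at most `2 K`, and
`|∑_(n ≤ t) μ(n)| ≤ C t (log t) ^ (- 3 A - 5)` (`H43.SI.msum` for `q = 1`, `χ = 1`). Small `N`: enlarge `C`. -/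
theorem mob (A : ℝ) (hA : 0 < A) : ∃ C : ℝ, 0 < C ∧ ∀ N : ℕ, 2 ≤ N →
    |∑ n ∈ Icc 1 N, mo n / n| ≤ C * (Real.log N) ^ (-A) := by
  sorry

end Pool.Agent.H36.WH
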