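import Pool.Agent.H36.WH.Def
import Pool.Agent.H43.SI.Dirs

/-!
# WILD, chapter H: smooth sums of functions with a simple summatory function
-/

set_option autoImplicit false

namespace Pool.Agent.H36.WH

open Finset

/-- Proof. `ker_eq1` (or `sm_eq`): the sum is `δ ^ (-2)` times the integral over `w` in `(0, δ]` of
`win f N δ (z + w) = F ⌊exp (z + w + δ)⌋ - F ⌊exp (z + w)⌋`, where `F n = c n + O(C √n)`, so `F ⌊t⌋ = c t + O(C √t + |c|)` for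
all `t > 0`. -/
theorem smo {f : ℕ → ℝ} {c C : ℝ} (hC : 0 ≤ C) (hf : ∀ n : ℕ, |∑ b ∈ Icc 1 n, f b - c * n| ≤ C * Real.sqrt n) {δ z : ℝ}
    (hδ : 0 < δ) (hδ1 : δ ≤ 1) {N : ℕ} (hN : Real.exp (z + 2 * δ) ≤ N) :
    |∑ b ∈ Icc 1 N, f b * ker δ (Real.log b - z) - c * ((Real.exp δ - 1) / δ) ^ 2 * Real.exp z| ≤
      6 * (C + |c|) * (1 + Real.exp (z / 2)) / δ := by
  sorry

/-- Proof. `smo` for `f = 1`, `c = 1`, `C = 0`; but here without `exp (z / 2)`: the same proof with `|F ⌊t⌋ - t| ≤ 1`. -/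
theorem smo_one {δ z : ℝ} (hδ : 0 < δ) (hδ1 : δ ≤ 1) {N : ℕ} (hN : Real.exp (z + 2 * δ) ≤ N) :
    |∑ b ∈ Icc 1 N, ze b * ker δ (Real.log b - z) - ((Real.exp δ - 1) / δ) ^ 2 * Real.exp z| ≤ 2 / δ := by
  sorry

/-- Proof. `smo` and `H43.SI.dirs`. -/
theorem smo_ee : ∃ c C : ℝ, 0 < C ∧ ∀ (δ z : ℝ), 0 < δ → δ ≤ 1 → ∀ N : ℕ, Real.exp (z + 2 * δ) ≤ N →
    |∑ b ∈ Icc 1 N, ee b * ker δ (Real.log b - z) - c * ((Real.exp δ - 1) / δ) ^ 2 * Real.exp z| ≤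
      C * (1 + Real.exp (z / 2)) / δ := by
  sorry

end Pool.Agent.H36.WH
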