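import Pool.Agent.H36.WH.Win
import Pool.Agent.H36.WH.Bil
import Pool.Agent.H36.WH.Smo
import Pool.Agent.H36.WH.Mob

/-!
# WILD, chapter H: the three terms of the identity

`X = exp y`, `U = ⌊X ^ (2/5)⌋`, `δ = X ^ (-1/10) / 4`.
-/

set_option autoImplicit false

namespace Pool.Agent.H36.WH

open Finset MeasureTheory

/-- Proof. `bil_cs` with `α = hi U dd`, `β = hi U mo * ze`, `a = b = log (U + 1)`; `sm_mul`. `Q = 100 δ ^ 2 (1 + log N) ^ 5`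
(`win_tau`, `beta_le`). `P`: the interval `[a - δ, a]` contributes at most `δ` times
`(2 δ exp v + 1) ^ 2 (1 + log N) ^ 2 exp (-2 v) ≤ C δ ^ 2 (log X) ^ 2` (`δ exp a ≥ 1`); on the intervals
`[log T, log 2 T]`, `T = 2 ^ k (U + 1)`, as long as `log T ≤ y - b + δ`, `win_l2` with `A = 20` (the windows of `hi U dd` for
`v ≥ a` are the windows of `dd`; `exp (-v) ≤ 1 / T`; `log T ≥ (log X) / 4`; at most `2 log X` values of `k`). So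
`P ≤ δ ^ 2 (log X) ^ (-18)` for large `X`. -/
theorem typ2 : ∃ X0 : ℝ, 10 ≤ X0 ∧ ∀ X : ℝ, X0 ≤ X → ∀ N : ℕ, 8 * X ≤ N → (N : ℝ) ≤ 10 * X →
    |sm (⇑(hi ⌊X ^ ((2 : ℝ) / 5)⌋₊ mo * ze * hi ⌊X ^ ((2 : ℝ) / 5)⌋₊ dd)) N (X ^ (-(1 : ℝ) / 10) / 4) (Real.log X)| ≤
      X / 16 := by
  sorry

/-- Proof. `sm_mul`; for every `a ≤ U` the inner sum over `b` is `smo_ee` with `z = log X - log a`
(`exp (z + 2 δ) ≤ e X / a ≤ N`). Main term `c ((exp δ - 1)/δ) ^ 2 X ∑_(a ≤ U) μ(a)/a`, which is small by `mob`; error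
`∑_(a ≤ U) C (1 + (X/a) ^ (1/2)) / δ ≤ C' (X U) ^ (1/2) / δ ≤ 4 C' X ^ (7/10 + 1/10)`. -/
theorem typ1 : ∃ X0 : ℝ, 10 ≤ X0 ∧ ∀ X : ℝ, X0 ≤ X → ∀ N : ℕ, 8 * X ≤ N → (N : ℝ) ≤ 10 * X →
    |sm (⇑(lo ⌊X ^ ((2 : ℝ) / 5)⌋₊ mo * ee)) N (X ^ (-(1 : ℝ) / 10) / 4) (Real.log X)| ≤ X / 16 := by
  sorry

/-- Proof. `sm_mul` for `f = lo U mo * lo V dd`, `g = ze`, and `smo_one` with `z = log X - log n`. Main term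
`((exp δ - 1)/δ) ^ 2 X ∑_n f n / n = ... (∑_(a ≤ U) μ(a)/a) (∑_(d ≤ V) D(d)/d)`, with `|D(d)| ≤ 1 + log d`, so the second sum is
at most `(1 + log V) ^ 2`; `mob` with `A = 4`. Error `∑_n |f n| 2/δ ≤ U V (1 + log V) 2/δ ≤ 8 X ^ (9/10) (1 + log X)`. -/
theorem typ3 : ∃ X0 : ℝ, 10 ≤ X0 ∧ ∀ X : ℝ, X0 ≤ X → ∀ N : ℕ, 8 * X ≤ N → (N : ℝ) ≤ 10 * X →
    |sm (⇑(lo ⌊X ^ ((2 : ℝ) / 5)⌋₊ mo * lo ⌊X ^ ((2 : ℝ) / 5)⌋₊ dd * ze)) N (X ^ (-(1 : ℝ) / 10) / 4) (Real.log X)| ≤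
      X / 16 := by
  sorry

end Pool.Agent.H36.WH
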