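import Pool.Agent.H36.WH.Def
import Pool.Agent.H43.SI.Si
import Pool.Agent.H43.SI.Psi

/-!
# WILD, chapter H: the windows of `Λ - 1` in the mean square
-/

set_option autoImplicit false

namespace Pool.Agent.H36.WH

open Finset MeasureTheory

/-- Proof. `H43.SI.si` for `q = 1`, `χ = 1`, `ε = 1/24` and `A + 2` gives `A1`. Let `A' = max A1 (A + 2)`, `δ2 = (log X) ^ (- A')`.
`si` for `δ` and for `δ2`: the mean square of `Sd Λ δ y / δ - Sd Λ δ2 y / δ2` is at most `4 X ^ 2 (log X) ^ (-A-2)`. By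
`H43.SI.psi_log` (exponent `A' + A + 2`) `Sd Λ δ2 y / δ2 = exp y (exp δ2 - 1) / δ2 + O(X (log X) ^ (-A-2))`
`= exp y + O(X (log X) ^ (-A-2))`. The window of the function one: `(exp y (exp δ - 1) + O(1)) / δ`
`= exp y + O(δ X + 1 / δ)`. -/
theorem win_l2 (A : ℝ) (hA : 0 < A) : ∃ A' X0 : ℝ, 0 < A' ∧ 10 ≤ X0 ∧ ∀ X δ : ℝ, X0 ≤ X → X ^ (-(1 : ℝ) / 2) ≤ δ →
    δ ≤ (Real.log X) ^ (-A') → ∀ N : ℕ, 6 * X ≤ N →
    ∫ y in (Real.log X)..(Real.log (2 * X)), (win dd N δ y) ^ 2 ≤ δ ^ 2 * X ^ 2 * (Real.log X) ^ (-A) := by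
  sorry

end Pool.Agent.H36.WH
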